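import Pool.Agent.MWV.Stmts

set_option autoImplicit false

/-!
# Squad MWV, row PCS (helper89): images of the letters
-/

namespace Pool.Agent.MWV.H89Pcs

open Pool.Agent.Helper14_MV Pool.Agent.Helper2_MV Pool.Agent.MWV

theorem pl_cons (e : ℕ) (P : List ℕ) : pl (e :: P) = (3 * e + 8) :: (3 * e + 1) :: pl P := by
  unfold pl
  rw [List.flatMap_cons]
  rfl

theorem pr_cons (e : ℕ) (P : List ℕ) : pr (e :: P) = (3 * e + 1) :: (3 * e + 8) :: pr P := by
  unfold pr
  rw [List.flatMap_cons]
  rfl

/-- position of a light in the left part -/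
theorem pos_left (α : List ℕ) (w : ℕ) (hα : 3 * w + 1 ∉ α) : ∀ (P U V : List ℕ),
    pl P ++ 2 :: α = U ++ (3 * w + 1) :: V →
      ∃ P1 P2, P = P1 ++ w :: P2 ∧ U = pl P1 ++ [3 * w + 8] ∧ V = pl P2 ++ 2 :: α := by
  intro P
  induction P with
  | nil =>
    intro U V h
    exfalso
    have h1 : 3 * w + 1 ∈ pl [] ++ 2 :: α := by
      rw [h]
      simp
    have h2 : 3 * w + 1 ∈ 2 :: α := h1
    rcases List.mem_cons.1 h2 with h3 | h3
    · omega
    · exact hα h3
  | cons e P ih =>
    intro U V h
    rw [pl_cons] at h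
    rcases U with _ | ⟨u, U⟩
    · simp only [List.cons_append, List.nil_append, List.cons.injEq] at h
      omega
    · rcases U with _ | ⟨u', U⟩
      · simp only [List.cons_append, List.nil_append, List.cons.injEq] at h
        obtain ⟨h1, h2, h3⟩ := h
        have hw : e = w := by omega
        subst hw
        exact ⟨[], P, rfl, by rw [← h1]; rfl, h3.symm⟩
      · simp only [List.cons_append, List.cons.injEq] at h
        obtain ⟨h1, h2, h3⟩ := h
        obtain ⟨P1, P2, h4, h5, h6⟩ := ih U V h3
        refine ⟨e :: P1, P2, by rw [h4]; rfl, ?_, h6⟩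
        rw [pl_cons, h5, ← h1, ← h2]
        rfl

/-- position of a light in `pr Q` -/
theorem pos_pr (w : ℕ) : ∀ (Q U V : List ℕ), pr Q = U ++ (3 * w + 1) :: V →
    ∃ Q1 Q2, Q = Q1 ++ w :: Q2 ∧ U = pr Q1 ∧ V = (3 * w + 8) :: pr Q2 := by
  intro Q
  induction Q with
  | nil =>
    intro U V h
    exfalso
    have h1 : 3 * w + 1 ∈ pr [] := by
      rw [h]
      simp
    have h2 : 3 * w + 1 ∈ ([] : List ℕ) := h1
    simp at h2
  | cons e Q ih =>
    intro U V h
    rw [pr_cons] at h
    rcases U with _ | ⟨u, U⟩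
    · simp only [List.nil_append, List.cons.injEq] at h
      obtain ⟨h1, h2⟩ := h
      have hw : e = w := by omega
      subst hw
      exact ⟨[], Q, rfl, rfl, h2.symm⟩
    · rcases U with _ | ⟨u', U⟩
      · simp only [List.cons_append, List.nil_append, List.cons.injEq] at h
        omega
      · simp only [List.cons_append, List.cons.injEq] at h
        obtain ⟨h1, h2, h3⟩ := h
        obtain ⟨Q1, Q2, h4, h5, h6⟩ := ih U V h3
        refine ⟨e :: Q1, Q2, by rw [h4]; rfl, ?_, h6⟩
        rw [pr_cons, ← h1, ← h2, h5]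

/-- position of a light in the right part -/
theorem pos_right (w : ℕ) (Q : List ℕ) : ∀ (γ : List ℕ), 3 * w + 1 ∉ γ → ∀ (U V : List ℕ),
    γ ++ 5 :: pr Q = U ++ (3 * w + 1) :: V →
      ∃ Q1 Q2, Q = Q1 ++ w :: Q2 ∧ U = γ ++ 5 :: pr Q1 ∧ V = (3 * w + 8) :: pr Q2 := by
  intro γ
  induction γ with
  | nil =>
    intro _ U V h
    rcases U with _ | ⟨u, U⟩
    · simp only [List.nil_append, List.cons.injEq] at h
      omega
    · simp only [List.nil_append, List.cons_append, List.cons.injEq] at h
      obtain ⟨h1, h2⟩ := h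
      obtain ⟨Q1, Q2, h3, h4, h5⟩ := pos_pr w Q U V h2
      exact ⟨Q1, Q2, h3, by rw [← h1, h4]; rfl, h5⟩
  | cons c γ ih =>
    intro hγ U V h
    rcases U with _ | ⟨u, U⟩
    · simp only [List.cons_append, List.nil_append, List.cons.injEq] at h
      exact absurd (by rw [h.1]; simp) hγ
    · simp only [List.cons_append, List.cons.injEq] at h
      obtain ⟨h1, h2⟩ := h
      obtain ⟨Q1, Q2, h3, h4, h5⟩ := ih (fun hm => hγ (List.mem_cons_of_mem _ hm)) U V h2
      exact ⟨Q1, Q2, h3, by rw [← h1, h4]; rfl, h5⟩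

/-- the last letter of `5 :: pr Q` is a separator -/
theorem last_sep (Q : List ℕ) : ∃ r s, 5 :: pr Q = r ++ [s] ∧ s % 3 = 2 := by
  induction Q using List.reverseRecOn with
  | nil => exact ⟨[], 5, rfl, rfl⟩
  | append_singleton Q e _ =>
    refine ⟨5 :: (pr Q ++ [3 * e + 1]), 3 * e + 8, ?_, by omega⟩
    have h : pr (Q ++ [e]) = pr Q ++ [3 * e + 1, 3 * e + 8] := by
      unfold pr
      rw [List.flatMap_append, List.flatMap_cons, List.flatMap_nil, List.append_nil]
    rw [h]
    simp

/-- the value of `im` at a letter is a part of `im` -/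
theorem im_part (N : ℕ) (f : ℕ → List ℕ) {b : ℕ} {μ : List ℕ} (hb : b ∈ μ) :
    ∃ s t, im N f μ = s ++ (im N f [b] ++ t) := by
  obtain ⟨μ1, μ2, rfl⟩ := List.append_of_mem hb
  refine ⟨im N f μ1, im N f μ2, ?_⟩
  unfold im
  rw [List.flatMap_append, List.flatMap_cons, List.flatMap_cons, List.flatMap_nil,
    List.append_nil]

theorem count_pow (k c : ℕ) (u : List ℕ) : ((List.replicate k u).flatten).count c =
    k * u.count c := by
  induction k with
  | zero => simp
  | succ k ih =>
    rw [List.replicate_succ, List.flatten_cons, List.count_append, ih]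
    ring

/-- **PCS** -/
theorem pcs : PcsStmt := by
  intro N f P' Q' m μ α1 γ1 hN hnd hF
  have hcount : ∀ z, z ∈ im N f μ → z % 3 ≠ 0 →
      ∃ w ∈ P' ++ Q', z = 3 * w + 1 ∧ z ∉ α1 ∧ z ∉ γ1 ∧ (im N f μ).count z ≤ 1 := by
    intro z hz hz3
    rcases hF.ok.mem z (by simp [hz]) with h | ⟨w, hw, rfl⟩
    · exact absurd h hz3
    · have h1 := hF.ok.one w hw
      have h2 : 1 ≤ (im N f μ).count (3 * w + 1) := List.count_pos_iff.2 hz
      simp only [List.count_append] at h1
      refine ⟨w, hw, rfl, ?_, ?_, by omega⟩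
      · exact List.count_eq_zero.1 (by omega)
      · exact List.count_eq_zero.1 (by omega)
  refine ⟨?_, ?_⟩
  · intro h hμ h3 a ha
    by_contra ha3
    obtain ⟨s, t, hst⟩ := im_part N f hμ
    have h1 : im N f [h] = (List.replicate (N + 1) (f h)).flatten := by
      unfold im
      rw [List.flatMap_cons, List.flatMap_nil, List.append_nil, if_pos h3]
    rw [h1] at hst
    have h2 : 1 ≤ (f h).count a := List.count_pos_iff.2 ha
    have h4 : 2 ≤ (im N f μ).count a := by
      rw [hst, List.count_append, List.count_append, count_pow]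
      have h5 : 2 * 1 ≤ (N + 1) * (f h).count a := Nat.mul_le_mul (by omega) h2
      omega
    have h6 : a ∈ im N f μ := List.count_pos_iff.1 (by omega)
    obtain ⟨w, _, _, _, _, h7⟩ := hcount a h6 ha3
    omega
  · intro i hi hμ z hz hz3
    obtain ⟨s, t, hst⟩ := im_part N f hμ
    have h1 : im N f [3 * i + 1] = f (3 * i + 1) := by
      unfold im
      rw [List.flatMap_cons, List.flatMap_nil, List.append_nil, if_neg (by omega)]
    rw [h1] at hst
    have hsub : ∀ c ∈ f (3 * i + 1), c ∈ im N f μ := by
      intro c hc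
      rw [hst]
      simp [hc]
    have hsep : ∀ c ∈ f (3 * i + 1), c % 3 ≠ 2 := by
      intro c hc h2
      obtain ⟨w, _, h3, _⟩ := hcount c (hsub c hc) (by omega)
      omega
    obtain ⟨w, hw, rfl, hα, hγ, _⟩ := hcount z (hsub z hz) hz3
    obtain ⟨g1, g2, hg⟩ := List.append_of_mem hz
    rw [hg] at hsep
    have hdis : ∀ x, x ∈ P' → x ∉ Q' := fun x h1 h2 =>
      (List.nodup_append.1 hnd).2.2 x h1 x h2 rfl
    rcases List.mem_append.1 hi with hiP | hiQ
    · obtain ⟨x1, x2, hx⟩ := hF.lp i hiP hμ
      rw [hg] at hx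
      have hx' : pl P' ++ 2 :: α1 = (x1 ++ g1) ++ (3 * w + 1) :: (g2 ++ x2) := by
        rw [hx]
        simp only [List.append_assoc, List.cons_append]
      obtain ⟨P1, P2, hP, hU, hV⟩ := pos_left α1 w hα P' _ _ hx'
      have hg1 : g1 = [] := by
        rcases List.eq_nil_or_concat g1 with h | ⟨g, c, rfl⟩
        · exact h
        · exfalso
          rw [List.concat_eq_append] at hU hsep
          rw [← List.append_assoc] at hU
          have h3 := List.append_inj_right' hU rfl
          have h4 : c = 3 * w + 8 := by simpa using h3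
          exact hsep c (by simp) (by omega)
      have hg2 : g2 = [] := by
        rcases g2 with _ | ⟨c, g2⟩
        · rfl
        · exfalso
          rcases P2 with _ | ⟨e, P2⟩
          · have h3 : (c :: g2) ++ x2 = 2 :: α1 := hV
            rw [List.cons_append, List.cons.injEq] at h3
            exact hsep c (by simp) (by omega)
          · rw [pl_cons, List.cons_append, List.cons_append, List.cons.injEq] at hV
            exact hsep c (by simp) (by omega)
      subst hg1 hg2
      have hwP : w ∈ P' := by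
        rw [hP]
        simp
      exact ⟨hg, w, hw, rfl, fun h => absurd h (hdis w hwP), fun h => absurd h (hdis i hiP)⟩
    · obtain ⟨y1, y2, hy⟩ := hF.rp i hiQ hμ
      rw [hg] at hy
      have hy' : γ1 ++ 5 :: pr Q' = (y1 ++ g1) ++ (3 * w + 1) :: (g2 ++ y2) := by
        rw [hy]
        simp only [List.append_assoc, List.cons_append]
      obtain ⟨Q1, Q2, hQ, hU, hV⟩ := pos_right w Q' γ1 hγ _ _ hy'
      have hg1 : g1 = [] := by
        rcases List.eq_nil_or_concat g1 with h | ⟨g, c, rfl⟩
        · exact h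
        · exfalso
          rw [List.concat_eq_append] at hU hsep
          obtain ⟨r, s', hr, hs⟩ := last_sep Q1
          rw [hr, ← List.append_assoc, ← List.append_assoc] at hU
          have h3 := List.append_inj_right' hU rfl
          have h4 : c = s' := by simpa using h3
          exact hsep c (by simp) (by omega)
      have hg2 : g2 = [] := by
        rcases g2 with _ | ⟨c, g2⟩
        · rfl
        · exfalso
          rw [List.cons_append, List.cons.injEq] at hV
          exact hsep c (by simp) (by omega)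
      subst hg1 hg2
      have hwQ : w ∈ Q' := by
        rw [hQ]
        simp
      exact ⟨hg, w, hw, rfl, fun _ => hiQ, fun _ => hwQ⟩

end Pool.Agent.MWV.H89Pcs
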