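import Pool.Agent.MWV.Stmts

set_option autoImplicit false

/-!
# Squad MWV, row WOB (helper89): from a congruence to the calculus
-/

namespace Pool.Agent.MWV.H89

open Pool.Agent.Helper14_MV Pool.Agent.Helper2_MV Pool.Agent.MWV

/-- the power of a word -/
def pr (k : ℕ) (u : List ℕ) : List ℕ := (List.replicate k u).flatten

theorem pr_zero (u : List ℕ) : pr 0 u = [] := rfl

theorem pr_succ (k : ℕ) (u : List ℕ) : pr (k + 1) u = u ++ pr k u := by
  unfold pr
  rw [List.replicate_succ, List.flatten_cons]

theorem pr_X (k m h : ℕ) : pr k (X m h) = X (k * m) h := by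
  induction k with
  | zero => simp [pr_zero]
  | succ k ih =>
    rw [pr_succ, ih, ← List.replicate_add]
    congr 1
    ring

theorem X_flatMap (k h : ℕ) (g : ℕ → List ℕ) : (X k h).flatMap g = pr k (g h) := by
  induction k with
  | zero => rfl
  | succ k ih =>
    rw [pr_succ, ← ih, X, List.replicate_succ, List.flatMap_cons]

theorem dd_append (n : ℕ) (u v : List ℕ) : dd n (u ++ v) = dd n u ++ dd n v := by
  unfold dd
  rw [List.flatMap_append]

theorem dd_cons (n a : ℕ) (u : List ℕ) :
    dd n (a :: u) = (if a % 3 = 0 then X (n + 1) a else [a]) ++ dd n u := by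
  unfold dd
  rw [List.flatMap_cons]

section
variable {β : FIC} {n : ℕ}

/-- powers of one letter -/
theorem pow_eq (h1 : RR β (X 2 0) (X (n + 2) 0)) (h k a : ℕ) (ha : 2 ≤ a) :
    RR β (X a h) (X (a + k * n) h) := by
  have e1 : RR β (X 2 h) (X (n + 2) h) := by
    have h2 := h1.sub (fun _ => [h])
    rw [X_flatMap, X_flatMap] at h2
    have e : ∀ m : ℕ, pr m [h] = X m h := by
      intro m
      have := pr_X m 1 h
      simpa using this
    rw [e, e] at h2
    exact h2
  induction k with
  | zero =>
    rw [Nat.zero_mul, Nat.add_zero]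
    exact RR.refl _
  | succ k ih =>
    refine β.trans ih ?_
    have h3 := e1.append (RR.refl (β := β) (X (a - 2 + k * n) h))
    rw [← List.replicate_add, ← List.replicate_add] at h3
    have e3 : 2 + (a - 2 + k * n) = a + k * n := by omega
    have e4 : n + 2 + (a - 2 + k * n) = a + (k + 1) * n := by
      rw [Nat.succ_mul]
      omega
    rw [e3, e4] at h3
    exact h3

theorem pow_sq (hn : 1 ≤ n) (h1 : RR β (X 2 0) (X (n + 2) 0)) (h : ℕ) :
    RR β (X ((n + 1) * (n + 1)) h) (X (n + 1) h) := by
  have h2 := pow_eq h1 h (n + 1) (n + 1) (by omega)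
  have e : n + 1 + (n + 1) * n = (n + 1) * (n + 1) := by ring
  rw [e] at h2
  exact RR.symm h2

theorem comm_letters (h2 : RR β (X (n + 1) 0 ++ X (n + 1) 3) (X (n + 1) 3 ++ X (n + 1) 0))
    (h h' : ℕ) : RR β (X (n + 1) h ++ X (n + 1) h') (X (n + 1) h' ++ X (n + 1) h) := by
  have h3 := h2.sub (fun c => if c = 0 then [h] else [h'])
  rw [List.flatMap_append, List.flatMap_append, X_flatMap, X_flatMap] at h3
  have e : ∀ m c : ℕ, pr m [c] = X m c := by
    intro m c
    have := pr_X m 1 c
    simpa using this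
  simpa [e] using h3

theorem comm_word (h2 : RR β (X (n + 1) 0 ++ X (n + 1) 3) (X (n + 1) 3 ++ X (n + 1) 0))
    (h : ℕ) : ∀ w : List ℕ, (∀ a ∈ w, a % 3 = 0) →
      RR β (dd n w ++ X (n + 1) h) (X (n + 1) h ++ dd n w) := by
  intro w
  induction w with
  | nil =>
    intro _
    have e : dd n [] = [] := rfl
    rw [e, List.nil_append, List.append_nil]
    exact RR.refl _
  | cons a w ih =>
    intro hw
    rw [dd_cons, if_pos (hw a (by simp))]
    have h3 := ih (fun b hb => hw b (List.mem_cons_of_mem _ hb))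
    have h4 := (RR.refl (β := β) (X (n + 1) a)).append h3
    have h5 := (comm_letters h2 a h).append (RR.refl (β := β) (dd n w))
    rw [← List.append_assoc] at h4
    rw [List.append_assoc, List.append_assoc] at h5
    exact β.trans h4 h5

theorem pr_comm {A D : List ℕ} (h : RR β (D ++ A) (A ++ D)) (k : ℕ) :
    RR β (D ++ pr k A) (pr k A ++ D) := by
  induction k with
  | zero =>
    rw [pr_zero, List.nil_append, List.append_nil]
    exact RR.refl _
  | succ k ih =>
    rw [pr_succ]
    have h1 := h.append (RR.refl (β := β) (pr k A))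
    have h2 := (RR.refl (β := β) A).append ih
    rw [List.append_assoc, List.append_assoc] at h1
    rw [← List.append_assoc A (pr k A) D] at h2
    exact β.trans h1 h2

theorem pr_mul {A D : List ℕ} (h : RR β (D ++ A) (A ++ D)) (k : ℕ) :
    RR β (pr k (A ++ D)) (pr k A ++ pr k D) := by
  induction k with
  | zero => exact RR.refl _
  | succ k ih =>
    rw [pr_succ, pr_succ, pr_succ]
    have h1 := (RR.refl (β := β) (A ++ D)).append ih
    have h2 := ((RR.refl (β := β) A).append (pr_comm h k)).append (RR.refl (β := β) (pr k D))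
    refine β.trans h1 ?_
    have e1 : A ++ D ++ (pr k A ++ pr k D) = A ++ (D ++ pr k A) ++ pr k D := by
      simp only [List.append_assoc]
    have e2 : A ++ pr k A ++ (D ++ pr k D) = A ++ (pr k A ++ D) ++ pr k D := by
      simp only [List.append_assoc]
    rw [e1, e2]
    exact h2

theorem heavy_pow (hn : 1 ≤ n) (h1 : RR β (X 2 0) (X (n + 2) 0))
    (h2 : RR β (X (n + 1) 0 ++ X (n + 1) 3) (X (n + 1) 3 ++ X (n + 1) 0)) :
    ∀ w : List ℕ, (∀ a ∈ w, a % 3 = 0) → RR β (pr (n + 1) (dd n w)) (dd n w) := by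
  intro w
  induction w with
  | nil =>
    intro _
    have e : ∀ k, pr k (dd n []) = [] := by
      intro k
      induction k with
      | zero => rfl
      | succ k ih => rw [pr_succ, ih]; rfl
    rw [e]
    exact RR.refl _
  | cons a w ih =>
    intro hw
    rw [dd_cons, if_pos (hw a (by simp))]
    have hw' : ∀ b ∈ w, b % 3 = 0 := fun b hb => hw b (List.mem_cons_of_mem _ hb)
    refine β.trans (pr_mul (comm_word h2 a w hw') (n + 1)) ?_
    rw [pr_X]
    exact (pow_sq hn h1 a).append (ih hw')

theorem sub_dd (hn : 1 ≤ n) (h1 : RR β (X 2 0) (X (n + 2) 0))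
    (h2 : RR β (X (n + 1) 0 ++ X (n + 1) 3) (X (n + 1) 3 ++ X (n + 1) 0)) (f : ℕ → List ℕ)
    (hf : ∀ h, h % 3 = 0 → ∀ a ∈ f h, a % 3 = 0) (u : List ℕ) :
    RR β ((dd n u).flatMap (fun a => dd n (f a))) (dd n (u.flatMap f)) := by
  induction u with
  | nil => exact RR.refl _
  | cons a u ih =>
    rw [dd_cons, List.flatMap_append, List.flatMap_cons, dd_append]
    refine RR.append ?_ ih
    by_cases ha : a % 3 = 0
    · rw [if_pos ha, X_flatMap]
      exact heavy_pow hn h1 h2 (f a) (hf a ha)
    · rw [if_neg ha, List.flatMap_cons, List.flatMap_nil, List.append_nil]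
      exact RR.refl _

end

theorem dd_light {n : ℕ} {v : List ℕ} (h : ∀ a ∈ v, a % 3 ≠ 0) : dd n v = v := by
  induction v with
  | nil => rfl
  | cons a v ih =>
    rw [dd_cons, if_neg (h a (by simp)), ih (fun b hb => h b (List.mem_cons_of_mem _ hb))]
    rfl

/-- **WOB** -/
theorem wob : WobStmt := by
  intro β n hn h1 h2 hI
  refine ⟨⟨hn, fun u => RR.refl _, fun h => RR.symm h, fun h h' => β.trans h h', ?_, ?_, ?_, ?_,
    ?_⟩, ?_, ?_⟩
  · intro u v u' v' h h'
    unfold SS at h h' ⊢
    rw [dd_append, dd_append]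
    exact h.append h'
  · intro f u v hf h
    unfold SS at h ⊢
    exact β.trans (RR.symm (sub_dd hn h1 h2 f hf u))
      (β.trans (h.sub (fun a => dd n (f a))) (sub_dd hn h1 h2 f hf v))
  · unfold SS
    have e1 : dd n (X (n + 1) 0) = X ((n + 1) * (n + 1)) 0 := by
      unfold dd
      rw [X_flatMap, if_pos (Nat.zero_mod 3), pr_X]
    have e2 : dd n [0] = X (n + 1) 0 := by
      rw [dd_cons, if_pos (Nat.zero_mod 3)]
      exact List.append_nil _
    rw [e1, e2]
    exact pow_sq hn h1 0
  · unfold SS
    have e1 : dd n [0, 3] = X (n + 1) 0 ++ X (n + 1) 3 := by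
      simp [dd]
    have e2 : dd n [3, 0] = X (n + 1) 3 ++ X (n + 1) 0 := by
      simp [dd]
    rw [e1, e2]
    exact h2
  · intro v h
    unfold SS at h
    have e1 : dd n [1, 2, 1] = [1, 2, 1] := by simp [dd]
    rw [e1] at h
    have h3 := iso_aba hI (by decide : (1 : ℕ) ≠ 2) h
    have h4 : ∀ a ∈ v, a % 3 ≠ 0 := by
      intro a ha ha0
      have h5 : a ∈ dd n v := by
        unfold dd
        rw [List.mem_flatMap]
        refine ⟨a, ha, ?_⟩
        rw [if_pos ha0]
        simp
      rw [h3] at h5
      simp at h5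
      omega
    rw [dd_light h4] at h3
    exact h3
  · intro u v h
    exact h.sub _
  · intro u
    unfold SS
    induction u with
    | nil => exact RR.refl _
    | cons a u ih =>
      rw [dd_cons, dd_append]
      refine RR.append ?_ ih
      by_cases ha : a % 3 = 0
      · rw [if_pos ha]
        have e1 : dd n (X (n + 1) a) = X ((n + 1) * (n + 1)) a := by
          unfold dd
          rw [X_flatMap, if_pos ha, pr_X]
        rw [e1]
        exact RR.symm (pow_sq hn h1 a)
      · rw [if_neg ha, dd_cons, if_neg ha]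
        exact RR.refl _

end Pool.Agent.MWV.H89
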